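import Pool.Agent.FSol.RootsN
import Pool.Agent.FSol.Loc
import Pool.Agent.D49.Y

/-!
# FSolB: the solutions of `6 + x ^ 3 - y ^ 2 + y ^ 2 z ^ 2 = 0` with a given `z` or a given `y`

`X = - x` is a root of `X ^ 3 = 6` modulo `z ^ 2 - 1` and modulo `y ^ 2`, with `X ≤ 2 (|y| |z|) ^ (2 / 3)`. By `rootsN` there are few such
roots.
-/

open Finset

namespace Pool.Agent.FSolB

open Pool.Agent.FSol

theorem card_of_inj {α β : Type*} {s : Set α} {F : Finset β} (f : α → β) (hf : ∀ a ∈ s, f a ∈ F)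
    (hi : Set.InjOn f s) : s.Finite ∧ s.ncard ≤ F.card := by
  have h1 : s.Finite := Set.Finite.of_injOn (f := f) (t := ↑F) (fun a ha => hf a ha) hi F.finite_toSet
  refine ⟨h1, ?_⟩
  have h2 := Set.ncard_le_ncard_of_injOn f (t := (F : Set β)) (fun a ha => hf a ha) hi F.finite_toSet
  rwa [Set.ncard_coe_finset] at h2

/-- `- 6` is not a cube. -/
theorem no_cube (x : ℤ) : x ^ 3 ≠ -6 := by
  intro h
  have h1 : x ≤ -1 := by
    by_contra hc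
    have : 0 ≤ x ^ 3 := by
      have : 0 ≤ x := by omega
      positivity
    omega
  have h2 : -2 < x := by
    by_contra hc
    have h3 : 2 ≤ -x := by omega
    have h4 : (2 : ℤ) ^ 3 ≤ (-x) ^ 3 := pow_le_pow_left₀ (by norm_num) h3 3
    have h5 : (-x) ^ 3 = - x ^ 3 := by ring
    rw [h5, h] at h4
    norm_num at h4
  have h3 : x = -1 := by omega
  rw [h3] at h
  norm_num at h

theorem eq_of_sq {a b : ℤ} (h : a ^ 2 = b ^ 2) (hs : decide (0 ≤ a) = decide (0 ≤ b)) : a = b := by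
  rcases sq_eq_sq_iff_abs_eq_abs a b |>.1 h with h1
  have h2 : (0 ≤ a) ↔ (0 ≤ b) := by simpa using hs
  rcases le_or_gt 0 a with h3 | h3
  · rw [abs_of_nonneg h3, abs_of_nonneg (h2.1 h3)] at h1
    exact h1
  · have h4 : b < 0 := by
      by_contra hc
      exact absurd (h2.2 (not_lt.1 hc)) (not_le.2 h3)
    rw [abs_of_neg h3, abs_of_neg h4] at h1
    omega

theorem shape {x y z : ℤ} (h : 6 + x ^ 3 - y ^ 2 + y ^ 2 * z ^ 2 = 0) :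
    (-x) ^ 3 - 6 = y ^ 2 * (z ^ 2 - 1) := by
  linear_combination (-1 : ℤ) * h

theorem y_ne {x y z : ℤ} (h : 6 + x ^ 3 - y ^ 2 + y ^ 2 * z ^ 2 = 0) : y ≠ 0 := by
  rintro rfl
  exact no_cube x (by linear_combination h)

theorem z_big {x y z : ℤ} (h : 6 + x ^ 3 - y ^ 2 + y ^ 2 * z ^ 2 = 0) (hz : z ≠ 0) : 4 ≤ z ^ 2 := by
  by_contra hc
  have h1 : |z| < 2 := by
    by_contra h2
    have h3 : (2 : ℤ) ^ 2 ≤ |z| ^ 2 := pow_le_pow_left₀ (by norm_num) (not_lt.1 h2) 2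
    rw [sq_abs] at h3
    norm_num at h3
    omega
  have h2 : 0 < |z| := abs_pos.2 hz
  have h3 : |z| = 1 := by omega
  have h4 : z ^ 2 = 1 := by rw [← sq_abs, h3]; norm_num
  rw [h4] at h
  exact no_cube x (by linear_combination h)

/-- `X = - x` is a positive integer, a root modulo `m`, at most `2 m'`. -/
theorem x_pos {x y z : ℤ} (h : 6 + x ^ 3 - y ^ 2 + y ^ 2 * z ^ 2 = 0) (hz : z ≠ 0) : x < 0 := by
  by_contra hc
  have h1 := shape h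
  have h2 := z_big h hz
  have h3 : 0 ≤ x ^ 3 := by
    have : 0 ≤ x := by omega
    positivity
  have h4 : 0 ≤ y ^ 2 * (z ^ 2 - 1) := mul_nonneg (sq_nonneg y) (by omega)
  have h5 : (-x) ^ 3 = - x ^ 3 := by ring
  rw [h5] at h1
  omega

theorem z_ne {x y z : ℤ} (h : 6 + x ^ 3 - y ^ 2 + y ^ 2 * z ^ 2 = 0) : z ≠ 0 :=
  Pool.Agent.Cub79.z_ne_zero (X := -x) (y := y) (by linear_combination (-1 : ℤ) * h)

/-- `X ^ 3 ≤ 8 w ^ 2` gives `X ≤ 2 w ^ (2 / 3)`. -/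
theorem le_floor {X : ℕ} {w : ℝ} (hw : 0 ≤ w) (h : (X : ℝ) ^ 3 ≤ 8 * w ^ 2) :
    X ≤ ⌊2 * w ^ (2 / 3 : ℝ)⌋₊ := by
  apply Nat.le_floor
  have h1 : (w ^ (2 / 3 : ℝ)) ^ 3 = w ^ 2 := by
    rw [← Real.rpow_natCast, ← Real.rpow_mul hw, ← Real.rpow_natCast]
    norm_num
  have h2 : (X : ℝ) ^ 3 ≤ (2 * w ^ (2 / 3 : ℝ)) ^ 3 := by
    rw [mul_pow, h1]
    linarith
  exact (pow_le_pow_iff_left₀ (by positivity) (by positivity) (by norm_num)).1 h2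

/-- `(a n) ^ (2 / 3) = (a / n ^ 2) ^ (2 / 3) n ^ 2`. -/
theorem two_thirds {a n : ℝ} (ha : 0 ≤ a) (hn : 0 < n) :
    (a * n) ^ (2 / 3 : ℝ) = (a / n ^ 2) ^ (2 / 3 : ℝ) * n ^ 2 := by
  have h1 : a * n = (a / n ^ 2) * n ^ 3 := by
    field_simp
  rw [h1, Real.mul_rpow (by positivity) (by positivity)]
  congr 1
  rw [← Real.rpow_natCast, ← Real.rpow_mul hn.le, ← Real.rpow_natCast]
  norm_num

theorem fixed_z {ε : ℝ} (hε : 0 < ε) : ∃ C : ℝ, 0 < C ∧ ∀ z : ℤ, ∀ Y : ℕ, 1 ≤ Y →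
    {t : ℤ × ℤ | |t.2| ≤ (Y : ℤ) ∧ 6 + t.1 ^ 3 - t.2 ^ 2 + t.2 ^ 2 * z ^ 2 = 0}.Finite ∧
    ({t : ℤ × ℤ | |t.2| ≤ (Y : ℤ) ∧ 6 + t.1 ^ 3 - t.2 ^ 2 + t.2 ^ 2 * z ^ 2 = 0}.ncard : ℝ) ≤
      C * |(z : ℝ)| ^ ε * (1 + ((Y : ℝ) / (z : ℝ) ^ 2) ^ (2 / 3 : ℝ)) := by
  obtain ⟨C, hC, hr⟩ := rootsN (half_pos hε)
  refine ⟨6 * C, by positivity, fun z Y hY => ?_⟩
  rcases Set.eq_empty_or_nonempty
    {t : ℤ × ℤ | |t.2| ≤ (Y : ℤ) ∧ 6 + t.1 ^ 3 - t.2 ^ 2 + t.2 ^ 2 * z ^ 2 = 0} with he | ⟨⟨x0, y0⟩, hy0, h0⟩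
  · rw [he]
    refine ⟨Set.finite_empty, ?_⟩
    rw [Set.ncard_empty, Nat.cast_zero]
    positivity
  have h0' : 6 + x0 ^ 3 - y0 ^ 2 + y0 ^ 2 * z ^ 2 = 0 := h0
  have hz : z ≠ 0 := z_ne h0'
  have hz4 := z_big h0' hz
  obtain ⟨-, -, l2, l9⟩ := loc (shape h0')
  set n := z.natAbs with hn
  have hn2 : ((n : ℕ) : ℤ) ^ 2 = z ^ 2 := by rw [hn, Int.natCast_natAbs, sq_abs]
  have hn4 : 4 ≤ n ^ 2 := by
    have : (4 : ℤ) ≤ (n : ℤ) ^ 2 := by rw [hn2]; exact hz4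
    exact_mod_cast this
  have hm : ((n ^ 2 - 1 : ℕ) : ℤ) = z ^ 2 - 1 := by
    rw [Nat.cast_sub (by omega)]
    push_cast
    rw [hn2]
  have hnpos : 0 < n := by
    rcases Nat.eq_zero_or_pos n with h1 | h1
    · rw [h1] at hn4
      norm_num at hn4
    · exact h1
  obtain ⟨B, hB⟩ : ∃ B : ℕ, B = ⌊2 * ((Y : ℝ) * n) ^ (2 / 3 : ℝ)⌋₊ := ⟨_, rfl⟩
  have hr1 := hr (n ^ 2 - 1) (by omega) (by
    intro hd
    apply l2
    rw [← hm]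
    exact_mod_cast hd) (by
    intro hd
    apply l9
    rw [← hm]
    exact_mod_cast hd) B
  set F := (range (B + 1)).filter (fun X : ℕ => ((n ^ 2 - 1 : ℕ) : ℤ) ∣ (X : ℤ) ^ 3 - 6) with hF
  obtain ⟨hfin, hcard⟩ := card_of_inj
    (s := {t : ℤ × ℤ | |t.2| ≤ (Y : ℤ) ∧ 6 + t.1 ^ 3 - t.2 ^ 2 + t.2 ^ 2 * z ^ 2 = 0})
    (F := F ×ˢ (univ : Finset Bool)) (fun t => (t.1.natAbs, decide (0 ≤ t.2))) (by
      rintro ⟨x, y⟩ ⟨hy, h⟩
      have hy' : |y| ≤ (Y : ℤ) := hy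
      have h' : 6 + x ^ 3 - y ^ 2 + y ^ 2 * z ^ 2 = 0 := h
      have hx := x_pos h' hz
      have hX : ((x.natAbs : ℕ) : ℤ) = -x := by rw [Int.natCast_natAbs, abs_of_neg hx]
      have hs := shape h'
      rw [mem_product]
      refine ⟨?_, mem_univ _⟩
      rw [hF, mem_filter, mem_range]
      constructor
      · have hy2 : y ^ 2 ≤ (Y : ℤ) ^ 2 := by
          rw [← sq_abs y]
          exact pow_le_pow_left₀ (abs_nonneg y) hy' 2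
        have h1 : ((x.natAbs : ℕ) : ℤ) ^ 3 ≤ 8 * ((Y : ℤ) * n) ^ 2 := by
          rw [hX, mul_pow, hn2]
          have hY1 : (1 : ℤ) ≤ (Y : ℤ) ^ 2 := by exact_mod_cast Nat.one_le_pow _ _ hY
          have h2 : y ^ 2 * (z ^ 2 - 1) ≤ (Y : ℤ) ^ 2 * (z ^ 2 - 1) :=
            mul_le_mul_of_nonneg_right hy2 (by omega)
          nlinarith
        have h2 : ((x.natAbs : ℕ) : ℝ) ^ 3 ≤ 8 * ((Y : ℝ) * n) ^ 2 := by exact_mod_cast h1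
        have h3 := le_floor (by positivity) h2
        rw [← hB] at h3
        show x.natAbs < B + 1
        omega
      · show ((n ^ 2 - 1 : ℕ) : ℤ) ∣ ((x.natAbs : ℕ) : ℤ) ^ 3 - 6
        rw [hX, hm, hs]
        exact Dvd.intro_left _ rfl) (by
      rintro ⟨x, y⟩ ⟨hy, h⟩ ⟨x', y'⟩ ⟨hy', h'⟩ he
      have h1 : 6 + x ^ 3 - y ^ 2 + y ^ 2 * z ^ 2 = 0 := h
      have h1' : 6 + x' ^ 3 - y' ^ 2 + y' ^ 2 * z ^ 2 = 0 := h'
      have e1 : x.natAbs = x'.natAbs := congrArg Prod.fst he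
      have e2 : decide (0 ≤ y) = decide (0 ≤ y') := congrArg Prod.snd he
      have hx := x_pos h1 hz
      have hx' := x_pos h1' hz
      have e3 : x = x' := by omega
      subst e3
      have e4 : y ^ 2 * (z ^ 2 - 1) = y' ^ 2 * (z ^ 2 - 1) := by rw [← shape h1, ← shape h1']
      have e5 : y ^ 2 = y' ^ 2 := mul_right_cancel₀ (by omega : z ^ 2 - 1 ≠ 0) e4
      rw [eq_of_sq e5 e2])
  refine ⟨hfin, ?_⟩
  rw [card_product, card_univ, Fintype.card_bool] at hcard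
  have hnR : (4 : ℝ) ≤ (n : ℝ) ^ 2 := by exact_mod_cast hn4
  have hmR : ((n ^ 2 - 1 : ℕ) : ℝ) = (n : ℝ) ^ 2 - 1 := by
    rw [Nat.cast_sub (by omega)]
    push_cast
    ring
  have hn0 : (0 : ℝ) ≤ n := by positivity
  have hnp : (0 : ℝ) < n := by exact_mod_cast hnpos
  have hnz : (n : ℝ) = |(z : ℝ)| := by
    have : ((n : ℕ) : ℤ) = |z| := by rw [hn, Int.natCast_natAbs]
    exact_mod_cast congrArg (Int.cast : ℤ → ℝ) this
  have hnz2 : (z : ℝ) ^ 2 = (n : ℝ) ^ 2 := by rw [hnz, sq_abs]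
  obtain ⟨v, hv⟩ : ∃ v : ℝ, v = ((Y : ℝ) / (n : ℝ) ^ 2) ^ (2 / 3 : ℝ) := ⟨_, rfl⟩
  have hv0 : 0 ≤ v := by rw [hv]; positivity
  have c0 : (B : ℝ) ≤ 2 * (v * (n : ℝ) ^ 2) := by
    rw [hv, ← two_thirds (by positivity) hnp, hB]
    exact Nat.floor_le (by positivity)
  have c1 : (B : ℝ) / ((n ^ 2 - 1 : ℕ) : ℝ) ≤ 3 * v := by
    rw [hmR, div_le_iff₀ (by linarith)]
    nlinarith
  have c2 : ((n ^ 2 - 1 : ℕ) : ℝ) ^ (ε / 2) ≤ (n : ℝ) ^ ε := by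
    have : (n : ℝ) ^ ε = ((n : ℝ) ^ 2) ^ (ε / 2) := by
      rw [← Real.rpow_natCast, ← Real.rpow_mul hn0]
      congr 1
      push_cast
      ring
    rw [this, hmR]
    exact Real.rpow_le_rpow (by linarith) (by linarith) (by positivity)
  have c3 : (F.card : ℝ) ≤ C * (n : ℝ) ^ ε * (3 * v + 1) := by
    refine hr1.trans ?_
    have c4 : C * ((n ^ 2 - 1 : ℕ) : ℝ) ^ (ε / 2) ≤ C * (n : ℝ) ^ ε := mul_le_mul_of_nonneg_left c2 hC.le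
    exact mul_le_mul c4 (by linarith) (by positivity) (by positivity)
  have c5 : ({t : ℤ × ℤ | |t.2| ≤ (Y : ℤ) ∧ 6 + t.1 ^ 3 - t.2 ^ 2 + t.2 ^ 2 * z ^ 2 = 0}.ncard : ℝ) ≤
      F.card * 2 := by
    exact_mod_cast hcard
  rw [← hnz, hnz2, ← hv]
  have c6 : C * (n : ℝ) ^ ε * (3 * v + 1) * 2 ≤ 6 * C * (n : ℝ) ^ ε * (1 + v) := by
    have : 0 ≤ C * (n : ℝ) ^ ε := by positivity
    nlinarith
  linarith

end Pool.Agent.FSolB
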