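import Pool.Agent.FSolB.Box

/-!
# FSolB: the solutions with a given `y`
-/

open Finset

namespace Pool.Agent.FSolB

open Pool.Agent.FSol

theorem fixed_y {ε : ℝ} (hε : 0 < ε) : ∃ C : ℝ, 0 < C ∧ ∀ y : ℤ, ∀ Z : ℕ, 1 ≤ Z →
    {t : ℤ × ℤ | |t.2| ≤ (Z : ℤ) ∧ 6 + t.1 ^ 3 - y ^ 2 + y ^ 2 * t.2 ^ 2 = 0}.Finite ∧
    ({t : ℤ × ℤ | |t.2| ≤ (Z : ℤ) ∧ 6 + t.1 ^ 3 - y ^ 2 + y ^ 2 * t.2 ^ 2 = 0}.ncard : ℝ) ≤
      C * |(y : ℝ)| ^ ε * (1 + ((Z : ℝ) / (y : ℝ) ^ 2) ^ (2 / 3 : ℝ)) := by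
  obtain ⟨C, hC, hr⟩ := rootsN (half_pos hε)
  refine ⟨4 * C, by positivity, fun y Z hZ => ?_⟩
  rcases Set.eq_empty_or_nonempty
    {t : ℤ × ℤ | |t.2| ≤ (Z : ℤ) ∧ 6 + t.1 ^ 3 - y ^ 2 + y ^ 2 * t.2 ^ 2 = 0} with he | ⟨⟨x0, z0⟩, hz0, h0⟩
  · rw [he]
    refine ⟨Set.finite_empty, ?_⟩
    rw [Set.ncard_empty, Nat.cast_zero]
    positivity
  have h0' : 6 + x0 ^ 3 - y ^ 2 + y ^ 2 * z0 ^ 2 = 0 := h0
  have hy := y_ne h0'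
  obtain ⟨l2, l3, -, -⟩ := loc (shape h0')
  set n := y.natAbs with hn
  have hn2 : ((n : ℕ) : ℤ) ^ 2 = y ^ 2 := by rw [hn, Int.natCast_natAbs, sq_abs]
  have hn1 : 1 ≤ n := by
    rw [hn]
    exact Int.natAbs_pos.2 hy
  have hy1 : (1 : ℤ) ≤ y ^ 2 := by
    have : 0 < y ^ 2 := by positivity
    omega
  have hm : ((n ^ 2 : ℕ) : ℤ) = y ^ 2 := by
    push_cast
    exact hn2
  obtain ⟨B, hB⟩ : ∃ B : ℕ, B = ⌊2 * ((Z : ℝ) * n) ^ (2 / 3 : ℝ)⌋₊ := ⟨_, rfl⟩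
  have hr1 := hr (n ^ 2) (Nat.one_le_pow _ _ hn1) (by
    intro hd
    apply l2
    have h1 : (2 : ℕ) ∣ n := Nat.prime_two.dvd_of_dvd_pow hd
    rw [hn] at h1
    exact Int.natCast_dvd.2 h1) (by
    intro hd
    apply l3
    have h1 : (3 : ℕ) ∣ n := Nat.prime_three.dvd_of_dvd_pow ((by norm_num : 3 ∣ 9).trans hd)
    rw [hn] at h1
    exact Int.natCast_dvd.2 h1) B
  set F := (range (B + 1)).filter (fun X : ℕ => ((n ^ 2 : ℕ) : ℤ) ∣ (X : ℤ) ^ 3 - 6) with hF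
  obtain ⟨hfin, hcard⟩ := card_of_inj
    (s := {t : ℤ × ℤ | |t.2| ≤ (Z : ℤ) ∧ 6 + t.1 ^ 3 - y ^ 2 + y ^ 2 * t.2 ^ 2 = 0})
    (F := F ×ˢ (univ : Finset Bool)) (fun t => (t.1.natAbs, decide (0 ≤ t.2))) (by
      rintro ⟨x, z⟩ ⟨hz, h⟩
      have hz' : |z| ≤ (Z : ℤ) := hz
      have h' : 6 + x ^ 3 - y ^ 2 + y ^ 2 * z ^ 2 = 0 := h
      have hx := x_pos h' (z_ne h')
      have hX : ((x.natAbs : ℕ) : ℤ) = -x := by rw [Int.natCast_natAbs, abs_of_neg hx]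
      have hs := shape h'
      rw [mem_product]
      refine ⟨?_, mem_univ _⟩
      rw [hF, mem_filter, mem_range]
      constructor
      · have hz2 : z ^ 2 ≤ (Z : ℤ) ^ 2 := by
          rw [← sq_abs z]
          exact pow_le_pow_left₀ (abs_nonneg z) hz' 2
        have h1 : ((x.natAbs : ℕ) : ℤ) ^ 3 ≤ 8 * ((Z : ℤ) * n) ^ 2 := by
          rw [hX, mul_pow, hn2]
          have hZ1 : (1 : ℤ) ≤ (Z : ℤ) ^ 2 := by exact_mod_cast Nat.one_le_pow _ _ hZ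
          have h2 : y ^ 2 * (z ^ 2 - 1) ≤ y ^ 2 * ((Z : ℤ) ^ 2 - 1) :=
            mul_le_mul_of_nonneg_left (by omega) (by omega)
          nlinarith
        have h2 : ((x.natAbs : ℕ) : ℝ) ^ 3 ≤ 8 * ((Z : ℝ) * n) ^ 2 := by exact_mod_cast h1
        have h3 := le_floor (by positivity) h2
        rw [← hB] at h3
        show x.natAbs < B + 1
        omega
      · show ((n ^ 2 : ℕ) : ℤ) ∣ ((x.natAbs : ℕ) : ℤ) ^ 3 - 6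
        rw [hX, hm, hs]
        exact Dvd.intro _ rfl) (by
      rintro ⟨x, z⟩ ⟨hz, h⟩ ⟨x', z'⟩ ⟨hz', h'⟩ he
      have h1 : 6 + x ^ 3 - y ^ 2 + y ^ 2 * z ^ 2 = 0 := h
      have h1' : 6 + x' ^ 3 - y ^ 2 + y ^ 2 * z' ^ 2 = 0 := h'
      have e1 : x.natAbs = x'.natAbs := congrArg Prod.fst he
      have e2 : decide (0 ≤ z) = decide (0 ≤ z') := congrArg Prod.snd he
      have hx := x_pos h1 (z_ne h1)
      have hx' := x_pos h1' (z_ne h1')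
      have e3 : x = x' := by omega
      subst e3
      have e4 : y ^ 2 * (z ^ 2 - 1) = y ^ 2 * (z' ^ 2 - 1) := by rw [← shape h1, ← shape h1']
      have e5 : z ^ 2 - 1 = z' ^ 2 - 1 := mul_left_cancel₀ (by omega : y ^ 2 ≠ 0) e4
      rw [eq_of_sq (by omega) e2])
  refine ⟨hfin, ?_⟩
  rw [card_product, card_univ, Fintype.card_bool] at hcard
  have hn0 : (0 : ℝ) ≤ n := by positivity
  have hnR : (1 : ℝ) ≤ (n : ℝ) := by exact_mod_cast hn1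
  have hnp : (0 : ℝ) < n := by linarith
  have hnz : (n : ℝ) = |(y : ℝ)| := by
    have : ((n : ℕ) : ℤ) = |y| := by rw [hn, Int.natCast_natAbs]
    exact_mod_cast congrArg (Int.cast : ℤ → ℝ) this
  have hnz2 : (y : ℝ) ^ 2 = (n : ℝ) ^ 2 := by rw [hnz, sq_abs]
  obtain ⟨v, hv⟩ : ∃ v : ℝ, v = ((Z : ℝ) / (n : ℝ) ^ 2) ^ (2 / 3 : ℝ) := ⟨_, rfl⟩
  have hv0 : 0 ≤ v := by rw [hv]; positivity
  have c0 : (B : ℝ) ≤ 2 * (v * (n : ℝ) ^ 2) := by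
    rw [hv, ← two_thirds (by positivity) hnp, hB]
    exact Nat.floor_le (by positivity)
  have c1 : (B : ℝ) / ((n ^ 2 : ℕ) : ℝ) ≤ 2 * v := by
    rw [div_le_iff₀ (by positivity)]
    push_cast
    linarith
  have c2 : ((n ^ 2 : ℕ) : ℝ) ^ (ε / 2) = (n : ℝ) ^ ε := by
    have : (n : ℝ) ^ ε = ((n : ℝ) ^ 2) ^ (ε / 2) := by
      rw [← Real.rpow_natCast, ← Real.rpow_mul hn0]
      congr 1
      push_cast
      ring
    rw [this]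
    push_cast
    rfl
  have c3 : (F.card : ℝ) ≤ C * (n : ℝ) ^ ε * (2 * v + 1) := by
    refine hr1.trans ?_
    rw [c2]
    exact mul_le_mul_of_nonneg_left (by linarith) (by positivity)
  have c5 : ({t : ℤ × ℤ | |t.2| ≤ (Z : ℤ) ∧ 6 + t.1 ^ 3 - y ^ 2 + y ^ 2 * t.2 ^ 2 = 0}.ncard : ℝ) ≤
      F.card * 2 := by
    exact_mod_cast hcard
  rw [← hnz, hnz2, ← hv]
  have c6 : C * (n : ℝ) ^ ε * (2 * v + 1) * 2 ≤ 4 * C * (n : ℝ) ^ ε * (1 + v) := by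
    have : 0 ≤ C * (n : ℝ) ^ ε := by positivity
    nlinarith
  linarith

end Pool.Agent.FSolB
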