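import Pool.Agent.FSolB.Box2

/-!
# FSolB: the solutions in a box
-/

open Finset

namespace Pool.Agent.FSolB

/-- The bound of `fixed_z` and `fixed_y` summed over `|w| ≤ W`. -/
theorem sum_bound {ε : ℝ} (hε : 0 < ε) : ∃ T : ℝ, 0 < T ∧ ∀ W A : ℕ, 1 ≤ W →
    ∑ w ∈ Icc (-(W : ℤ)) W, |(w : ℝ)| ^ ε * (1 + ((A : ℝ) / (w : ℝ) ^ 2) ^ (2 / 3 : ℝ)) ≤
      T * (W : ℝ) ^ ε * (W + (A : ℝ) ^ (2 / 3 : ℝ)) := by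
  have hs := Real.summable_abs_int_rpow (b := 4 / 3) (by norm_num)
  obtain ⟨S, hS⟩ : ∃ S : ℝ, S = ∑' n : ℤ, |(n : ℝ)| ^ (-(4 / 3 : ℝ)) := ⟨_, rfl⟩
  have hS0 : 0 ≤ S := by
    rw [hS]
    exact tsum_nonneg fun n => by positivity
  refine ⟨3 + S, by linarith, fun W A hW => ?_⟩
  have hWR : (1 : ℝ) ≤ W := by exact_mod_cast hW
  have h1 : ∀ w ∈ Icc (-(W : ℤ)) W, |(w : ℝ)| ^ ε * (1 + ((A : ℝ) / (w : ℝ) ^ 2) ^ (2 / 3 : ℝ)) ≤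
      (W : ℝ) ^ ε * (1 + (A : ℝ) ^ (2 / 3 : ℝ) * |(w : ℝ)| ^ (-(4 / 3 : ℝ))) := by
    intro w hw
    have h3 : |w| ≤ (W : ℤ) := abs_le.2 (mem_Icc.1 hw)
    have h4 : |(w : ℝ)| ≤ (W : ℝ) := by exact_mod_cast h3
    have h5 : |(w : ℝ)| ^ ε ≤ (W : ℝ) ^ ε := Real.rpow_le_rpow (abs_nonneg _) h4 hε.le
    have h6 : ((A : ℝ) / (w : ℝ) ^ 2) ^ (2 / 3 : ℝ) = (A : ℝ) ^ (2 / 3 : ℝ) * |(w : ℝ)| ^ (-(4 / 3 : ℝ)) := by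
      rw [Real.div_rpow (by positivity) (by positivity), Real.rpow_neg (abs_nonneg _), div_eq_mul_inv]
      congr 2
      rw [← sq_abs, ← Real.rpow_natCast, ← Real.rpow_mul (abs_nonneg _)]
      norm_num
    rw [h6]
    exact mul_le_mul_of_nonneg_right h5 (by positivity)
  refine (sum_le_sum h1).trans ?_
  rw [← mul_sum, sum_add_distrib, ← mul_sum, sum_const, nsmul_eq_mul, mul_one]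
  have h2 : ∑ w ∈ Icc (-(W : ℤ)) W, |(w : ℝ)| ^ (-(4 / 3 : ℝ)) ≤ S := by
    rw [hS]
    exact hs.sum_le_tsum _ (fun n _ => by positivity)
  have hlen : ((Icc (-(W : ℤ)) W).card : ℝ) ≤ 3 * W := by
    rw [Int.card_Icc]
    have h5 : ((W : ℤ) + 1 - -(W : ℤ)).toNat = 2 * W + 1 := by omega
    rw [h5]
    push_cast
    linarith
  have hA0 : 0 ≤ (A : ℝ) ^ (2 / 3 : ℝ) := by positivity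
  have h7 : ((Icc (-(W : ℤ)) W).card : ℝ) +
      (A : ℝ) ^ (2 / 3 : ℝ) * ∑ w ∈ Icc (-(W : ℤ)) W, |(w : ℝ)| ^ (-(4 / 3 : ℝ)) ≤
      (3 + S) * (W + (A : ℝ) ^ (2 / 3 : ℝ)) := by
    have := mul_le_mul_of_nonneg_left h2 hA0
    nlinarith
  calc (W : ℝ) ^ ε * (((Icc (-(W : ℤ)) W).card : ℝ) +
      (A : ℝ) ^ (2 / 3 : ℝ) * ∑ w ∈ Icc (-(W : ℤ)) W, |(w : ℝ)| ^ (-(4 / 3 : ℝ)))
      ≤ (W : ℝ) ^ ε * ((3 + S) * (W + (A : ℝ) ^ (2 / 3 : ℝ))) :=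
        mul_le_mul_of_nonneg_left h7 (by positivity)
    _ = (3 + S) * (W : ℝ) ^ ε * (W + (A : ℝ) ^ (2 / 3 : ℝ)) := by ring

open Classical in
/-- A set of triples which splits over the values `w` of one coordinate, `|w| ≤ W`. -/
theorem fiber_bound {s : Set (ℤ × ℤ × ℤ)} {W : ℕ} (g : ℤ → ℝ) (f : ℤ → ℤ × ℤ → ℤ × ℤ × ℤ)
    (R : ℤ → Set (ℤ × ℤ)) (hfin : ∀ w, (R w).Finite) (hR : ∀ w, ((R w).ncard : ℝ) ≤ g w)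
    (hs : ∀ t ∈ s, ∃ w ∈ Icc (-(W : ℤ)) W, ∃ r ∈ R w, f w r = t) :
    s.Finite ∧ (s.ncard : ℝ) ≤ ∑ w ∈ Icc (-(W : ℤ)) W, g w := by
  set U : Finset (ℤ × ℤ × ℤ) := (Icc (-(W : ℤ)) W).biUnion (fun w => (hfin w).toFinset.image (f w)) with hU
  have hsub : s ⊆ (U : Set (ℤ × ℤ × ℤ)) := by
    intro t ht
    obtain ⟨w, hw, r, hr, he⟩ := hs t ht
    rw [hU, mem_coe, mem_biUnion]
    exact ⟨w, hw, mem_image.2 ⟨r, (Set.Finite.mem_toFinset _).2 hr, he⟩⟩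
  refine ⟨(Finset.finite_toSet U).subset hsub, ?_⟩
  have hc1 := Set.ncard_le_ncard hsub (Finset.finite_toSet U)
  rw [Set.ncard_coe_finset] at hc1
  have hc2 : (s.ncard : ℝ) ≤ U.card := by exact_mod_cast hc1
  refine hc2.trans ?_
  have g1 : (U.card : ℝ) ≤ ∑ w ∈ Icc (-(W : ℤ)) W, ((((hfin w).toFinset.image (f w)).card : ℕ) : ℝ) := by
    rw [hU]
    exact_mod_cast card_biUnion_le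
  refine g1.trans (sum_le_sum fun w _ => ?_)
  have g3 : ((((hfin w).toFinset.image (f w)).card : ℕ) : ℝ) ≤ (((hfin w).toFinset.card : ℕ) : ℝ) := by
    exact_mod_cast card_image_le
  rw [← Set.ncard_eq_toFinset_card _ (hfin w)] at g3
  exact g3.trans (hR w)

theorem main {ε : ℝ} (hε : 0 < ε) : ∃ C : ℝ,
    (∀ z : ℤ, ∀ Y : ℕ, 1 ≤ Y →
      {t : ℤ × ℤ | |t.2| ≤ (Y : ℤ) ∧ 6 + t.1 ^ 3 - t.2 ^ 2 + t.2 ^ 2 * z ^ 2 = 0}.Finite ∧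
      ({t : ℤ × ℤ | |t.2| ≤ (Y : ℤ) ∧ 6 + t.1 ^ 3 - t.2 ^ 2 + t.2 ^ 2 * z ^ 2 = 0}.ncard : ℝ) ≤
        C * |(z : ℝ)| ^ ε * (1 + ((Y : ℝ) / (z : ℝ) ^ 2) ^ (2 / 3 : ℝ))) ∧
    (∀ y : ℤ, ∀ Z : ℕ, 1 ≤ Z →
      {t : ℤ × ℤ | |t.2| ≤ (Z : ℤ) ∧ 6 + t.1 ^ 3 - y ^ 2 + y ^ 2 * t.2 ^ 2 = 0}.Finite ∧
      ({t : ℤ × ℤ | |t.2| ≤ (Z : ℤ) ∧ 6 + t.1 ^ 3 - y ^ 2 + y ^ 2 * t.2 ^ 2 = 0}.ncard : ℝ) ≤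
        C * |(y : ℝ)| ^ ε * (1 + ((Z : ℝ) / (y : ℝ) ^ 2) ^ (2 / 3 : ℝ))) ∧
    (∀ Y Z : ℕ, 1 ≤ Y → 1 ≤ Z →
      {t : ℤ × ℤ × ℤ | |t.2.1| ≤ (Y : ℤ) ∧ |t.2.2| ≤ (Z : ℤ) ∧
        6 + t.1 ^ 3 - t.2.1 ^ 2 + t.2.1 ^ 2 * t.2.2 ^ 2 = 0}.Finite ∧
      ({t : ℤ × ℤ × ℤ | |t.2.1| ≤ (Y : ℤ) ∧ |t.2.2| ≤ (Z : ℤ) ∧
        6 + t.1 ^ 3 - t.2.1 ^ 2 + t.2.1 ^ 2 * t.2.2 ^ 2 = 0}.ncard : ℝ) ≤
          C * (Z : ℝ) ^ ε * (Z + (Y : ℝ) ^ (2 / 3 : ℝ)) ∧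
      ({t : ℤ × ℤ × ℤ | |t.2.1| ≤ (Y : ℤ) ∧ |t.2.2| ≤ (Z : ℤ) ∧
        6 + t.1 ^ 3 - t.2.1 ^ 2 + t.2.1 ^ 2 * t.2.2 ^ 2 = 0}.ncard : ℝ) ≤
          C * (Y : ℝ) ^ ε * (Y + (Z : ℝ) ^ (2 / 3 : ℝ))) := by
  obtain ⟨C₁, hC₁, h1⟩ := fixed_z hε
  obtain ⟨C₂, hC₂, h2⟩ := fixed_y hε
  obtain ⟨T, hT, hsum⟩ := sum_bound hε
  refine ⟨(C₁ + C₂) * (1 + T), fun z Y hY => ⟨(h1 z Y hY).1, (h1 z Y hY).2.trans ?_⟩,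
    fun y Z hZ => ⟨(h2 y Z hZ).1, (h2 y Z hZ).2.trans ?_⟩, fun Y Z hY hZ => ?_⟩
  · have h3 : C₁ ≤ (C₁ + C₂) * (1 + T) := by nlinarith
    have h4 : 0 ≤ |(z : ℝ)| ^ ε := by positivity
    exact mul_le_mul_of_nonneg_right (mul_le_mul_of_nonneg_right h3 h4) (by positivity)
  · have h3 : C₂ ≤ (C₁ + C₂) * (1 + T) := by nlinarith
    have h4 : 0 ≤ |(y : ℝ)| ^ ε := by positivity
    exact mul_le_mul_of_nonneg_right (mul_le_mul_of_nonneg_right h3 h4) (by positivity)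
  obtain ⟨hfin, hz⟩ := fiber_bound (W := Z)
    (s := {t : ℤ × ℤ × ℤ | |t.2.1| ≤ (Y : ℤ) ∧ |t.2.2| ≤ (Z : ℤ) ∧
        6 + t.1 ^ 3 - t.2.1 ^ 2 + t.2.1 ^ 2 * t.2.2 ^ 2 = 0})
    (fun z => C₁ * |(z : ℝ)| ^ ε * (1 + ((Y : ℝ) / (z : ℝ) ^ 2) ^ (2 / 3 : ℝ)))
    (fun z r => (r.1, r.2, z))
    (fun z => {t : ℤ × ℤ | |t.2| ≤ (Y : ℤ) ∧ 6 + t.1 ^ 3 - t.2 ^ 2 + t.2 ^ 2 * z ^ 2 = 0})
    (fun z => (h1 z Y hY).1) (fun z => (h1 z Y hY).2) (by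
      rintro ⟨x, y, z⟩ ⟨hy, hz, h⟩
      exact ⟨z, mem_Icc.2 (abs_le.1 hz), (x, y), ⟨hy, h⟩, rfl⟩)
  obtain ⟨-, hy⟩ := fiber_bound (W := Y)
    (s := {t : ℤ × ℤ × ℤ | |t.2.1| ≤ (Y : ℤ) ∧ |t.2.2| ≤ (Z : ℤ) ∧
        6 + t.1 ^ 3 - t.2.1 ^ 2 + t.2.1 ^ 2 * t.2.2 ^ 2 = 0})
    (fun y => C₂ * |(y : ℝ)| ^ ε * (1 + ((Z : ℝ) / (y : ℝ) ^ 2) ^ (2 / 3 : ℝ)))
    (fun y r => (r.1, y, r.2))
    (fun y => {t : ℤ × ℤ | |t.2| ≤ (Z : ℤ) ∧ 6 + t.1 ^ 3 - y ^ 2 + y ^ 2 * t.2 ^ 2 = 0})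
    (fun y => (h2 y Z hZ).1) (fun y => (h2 y Z hZ).2) (by
      rintro ⟨x, y, z⟩ ⟨hy, hz, h⟩
      exact ⟨y, mem_Icc.2 (abs_le.1 hy), (x, z), ⟨hz, h⟩, rfl⟩)
  refine ⟨hfin, hz.trans ?_, hy.trans ?_⟩
  · have h3 := mul_le_mul_of_nonneg_left (hsum Z Y hZ) hC₁.le
    rw [mul_sum] at h3
    simp only [mul_assoc] at h3 ⊢
    refine h3.trans ?_
    have h4 : C₁ * T ≤ (C₁ + C₂) * (1 + T) := by nlinarith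
    have h5 : 0 ≤ (Z : ℝ) ^ ε * ((Z : ℝ) + (Y : ℝ) ^ (2 / 3 : ℝ)) := by positivity
    have h6 := mul_le_mul_of_nonneg_right h4 h5
    nlinarith
  · have h3 := mul_le_mul_of_nonneg_left (hsum Y Z hY) hC₂.le
    rw [mul_sum] at h3
    simp only [mul_assoc] at h3 ⊢
    refine h3.trans ?_
    have h4 : C₂ * T ≤ (C₁ + C₂) * (1 + T) := by nlinarith
    have h5 : 0 ≤ (Y : ℝ) ^ ε * ((Y : ℝ) + (Z : ℝ) ^ (2 / 3 : ℝ)) := by positivity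
    have h6 := mul_le_mul_of_nonneg_right h4 h5
    nlinarith

end Pool.Agent.FSolB
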